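import Mathlib
import Pool.Agent.W845.HC.Fin

/-!
# The sharp threshold for Hamiltonicity of randomly perturbed graphs

For every integer function `d` with `a n ≤ d n ≤ b n` eventually, `0 < a`, `b < 1/2`, there is a
function `pst`, of order `1/n`, which is both a sharp threshold for Hamiltonicity of
`H ∪ G(n,p)` over all `H` of minimum degree at least `d`, and a sharp threshold for the property
that `G(n-d,p)` contains a linear forest with exactly `n-2d` edges.
-/

open Filter Topology

namespace Pool.Agent.Results.MP_42d591_pr.SharpHamiltonicity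

open Pool.Agent.W845.HC

theorem result (a b : ℝ) (d : ℕ → ℕ) (ha : 0 < a) (hb : b < 1 / 2)
    (hd : ∀ᶠ n : ℕ in atTop, a * n ≤ d n ∧ (d n : ℝ) ≤ b * n) :
    ∃ pst : ℕ → ℝ, (∃ c C : ℝ, 0 < c ∧ 0 < C ∧ ∀ᶠ n : ℕ in atTop,
      c / n ≤ pst n ∧ pst n ≤ C / n) ∧ SharpHam d pst ∧ SharpLF d pst :=
  top t_lam t_pex t_pst1 t_qth t_low t_high a b d ha hb hd

end Pool.Agent.Results.MP_42d591_pr.SharpHamiltonicity
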